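import Mathlib

/-!
# Simple Lebesgue spectrum on the line (the Banach-Ulam problem): common definitions
-/

namespace Pool.Agent.H691R3.SL

open MeasureTheory Set Filter Topology
open scoped Real BigOperators

noncomputable section

/-! ## Riesz products -/

/-- `cos (2 π k x)` for an integer frequency `k`. -/
def cs (k : ℤ) (x : ℝ) : ℝ := Real.cos (2 * π * (k : ℝ) * x)

/-- The finite Riesz product `∏ (1 + cos 2πnx)` over a list of frequencies. -/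
def RP (l : List ℕ) (x : ℝ) : ℝ := (l.map (fun n => 1 + cs (n : ℤ) x)).prod

/-- Even real trigonometric polynomial `∑_{j<m} a_j cos 2πjx`. -/
def tp (m : ℕ) (a : ℕ → ℝ) (x : ℝ) : ℝ := ∑ j ∈ Finset.range m, a j * cs (j : ℤ) x

/-- Growth of a list of new frequencies appended after frequencies of sum `s`:
every new frequency exceeds `B` plus twice the sum of everything before it. -/
def Gr (B : ℕ) : ℕ → List ℕ → Prop
  | _, [] => True
  | s, n :: w => B + 2 * s < n ∧ Gr B (s + n) w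

/-- Average of the Riesz products over the set `S` of classes (normalised by all classes). -/
def DD {Θ : Type} [Fintype Θ] (fr : Θ → List ℕ) (S : Finset Θ) (x : ℝ) : ℝ :=
  (∑ h ∈ S, RP (fr h) x) / (Fintype.card Θ : ℝ)

/-- `ab/(a+b)`. -/
def hm (a b : ℝ) : ℝ := a * b / (a + b)

/-- The potential of a set of classes. -/
def Phi {Θ : Type} [Fintype Θ] [DecidableEq Θ] (fr : Θ → List ℕ) (S : Finset Θ) : ℝ :=
  ∫ x in (0:ℝ)..1, hm (DD fr S x) (DD fr Sᶜ x)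

/-- Appending new frequencies `nl h a`, `a` a new uniform parameter in `Fin (K+1)`. -/
def ext {Θ : Type} {K : ℕ} (fr : Θ → List ℕ) (nl : Θ → Fin (K + 1) → List ℕ) :
    Θ × Fin (K + 1) → List ℕ := fun p => fr p.1 ++ nl p.1 p.2

/-- Lift of a set of classes. -/
def lift {Θ : Type} (K : ℕ) (S : Finset Θ) : Finset (Θ × Fin (K + 1)) := S ×ˢ Finset.univ

/-- `nl` is an admissible extension of `fr` by `d` frequencies, with growth parameter `B`. -/
structure IsExt {Θ : Type} {K : ℕ} (fr : Θ → List ℕ) (nl : Θ → Fin (K + 1) → List ℕ)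
    (B d : ℕ) : Prop where
  len : ∀ h a, (nl h a).length = d
  gr : ∀ h a, Gr B (fr h).sum (nl h a)

/-- `L¹` distance of the total densities of two families. -/
def L1d {Θ Θ' : Type} [Fintype Θ] [Fintype Θ'] (fr : Θ → List ℕ) (fr' : Θ' → List ℕ) : ℝ :=
  ∫ x in (0:ℝ)..1, |DD fr' Finset.univ x - DD fr Finset.univ x|

/-! ## Block gadget -/

/-- normalised elementary symmetric polynomial `e_k(ψ) / C(d,k)` -/
def esn {d : ℕ} (k : ℕ) (ψ : Fin d → ℝ) : ℝ :=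
  (∑ S ∈ (Finset.univ : Finset (Fin d)).powersetCard k, ∏ i ∈ S, ψ i) / (d.choose k : ℝ)

/-- kernel of the difference of two uniform variables in `{0,…,H-1}` -/
def kap (H : ℕ) (x : ℝ) : ℝ :=
  (∑ u ∈ Finset.range H, ∑ w ∈ Finset.range H, cs ((u : ℤ) - (w : ℤ)) x) / (H : ℝ) ^ 2

/-- factor of one coordinate -/
def psi {d : ℕ} (η : ℝ) (H : ℕ) (β : Fin d → ℕ) (x : ℝ) (j : Fin d) : ℝ :=
  η * cs (β j : ℤ) x + (1 - η) * kap H x

/-- slow coefficient of order `k` -/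
def Ak {d : ℕ} (η : ℝ) (H : ℕ) (β : Bool → Fin d → ℕ) (k : ℕ) (x : ℝ) : ℝ :=
  (esn k (psi η H (β false) x) + esn k (psi η H (β true) x)) / 2

/-- the fast frequencies `5^{i+1} Λ` -/
def LL {d : ℕ} (Λ : ℕ) (i : Fin d) : ℕ := 5 ^ ((i : ℕ) + 1) * Λ

/-- `∏_{i ∈ T} cos (2π L_i x)` -/
def cT {d : ℕ} (Λ : ℕ) (T : Finset (Fin d)) (x : ℝ) : ℝ := ∏ i ∈ T, cs ((LL Λ i : ℕ) : ℤ) x

/-- `∑_T A_{|T|}(x) ∏_{i∈T} cos (2π L_i x)` -/
def GA {d : ℕ} (A : ℕ → ℝ → ℝ) (Λ : ℕ) (x : ℝ) : ℝ :=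
  ∑ T : Finset (Fin d), A T.card x * cT Λ T x

/-- the normalised sum `d^{-1/2} ∑ cos (2π L_i x)` -/
def Fs (d : ℕ) (Λ : ℕ) (x : ℝ) : ℝ := (∑ i : Fin d, cs ((LL Λ i : ℕ) : ℤ) x) / Real.sqrt d

/-- the good set -/
def Gd (δ : ℝ) : Set ℝ := {x | δ ≤ |Real.sin (2 * π * x)|}

/-- continuous cut-off: `0` where `|sin 2πx| ≤ δ`, `1` where `|sin 2πx| ≥ 2δ` -/
def chi (δ : ℝ) (x : ℝ) : ℝ := min 1 (max 0 (|Real.sin (2 * π * x)| / δ - 1))

/-! ## The tree of classes -/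

/-- classes of level `k`: one parameter in `Fin (K j + 1)` for every `j < k` -/
def Th (K : ℕ → ℕ) : ℕ → Type
  | 0 => Unit
  | k + 1 => Th K k × Fin (K k + 1)

instance instFintypeTh (K : ℕ → ℕ) : (k : ℕ) → Fintype (Th K k)
  | 0 => inferInstanceAs (Fintype Unit)
  | k + 1 => by
      haveI := instFintypeTh K k
      exact inferInstanceAs (Fintype (Th K k × Fin (K k + 1)))

instance instDecEqTh (K : ℕ → ℕ) : (k : ℕ) → DecidableEq (Th K k)
  | 0 => inferInstanceAs (DecidableEq Unit)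
  | k + 1 => by
      haveI := instDecEqTh K k
      exact inferInstanceAs (DecidableEq (Th K k × Fin (K k + 1)))

instance instNonemptyTh (K : ℕ → ℕ) : (k : ℕ) → Nonempty (Th K k)
  | 0 => inferInstanceAs (Nonempty Unit)
  | k + 1 => by
      haveI := instNonemptyTh K k
      exact inferInstanceAs (Nonempty (Th K k × Fin (K k + 1)))

/-- The analytic data: frequencies for all levels, with convergence, positivity and decoding. -/
structure Data where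
  K : ℕ → ℕ
  fr : (k : ℕ) → Th K k → List ℕ
  nl : (k : ℕ) → Th K k → Fin (K k + 1) → List ℕ
  mm : ℕ → ℕ
  mm_ge : ∀ k, k < mm k
  d : ℕ → ℕ
  fr_zero : ∀ c, fr 0 c = []
  fr_succ : ∀ k (c : Th K k) (a : Fin (K k + 1)), fr (k + 1) (c, a) = fr k c ++ nl k c a
  d_pos : ∀ k, 0 < d k
  len : ∀ k c a, (nl k c a).length = d k
  gr : ∀ k c a, Gr (2 * mm k) (fr k c).sum (nl k c a)
  rho : ℝ → ℝ
  rho_int : IntervalIntegrable rho volume 0 1
  rho_pos : ∀ᵐ x ∂(volume.restrict (Set.Icc (0:ℝ) 1)), 0 < rho x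
  rho_lim : Tendsto (fun k => ∫ x in (0:ℝ)..1, |DD (fr k) Finset.univ x - rho x|) atTop (𝓝 0)
  wit : ∀ k (c : Th K k), ∃ a : ℕ → ℝ,
    ∫ x in (0:ℝ)..1, ((tp (mm (k + 1)) a x) ^ 2 * DD (fr (k + 1)) (lift (K k) {c}) x
        + (1 - tp (mm (k + 1)) a x) ^ 2 * DD (fr (k + 1)) (lift (K k) {c})ᶜ x)
      ≤ ((1 / 2 : ℝ) ^ k / (Fintype.card (Th K k) : ℝ)) ^ 2

/-- number of frequencies of the classes of level `k` -/
def Data.NN (𝒟 : Data) (k : ℕ) : ℕ := ∑ j ∈ Finset.range k, 𝒟.d j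

/-! ## Hilbert space side -/

section Hilbert

variable {H : Type*} [NormedAddCommGroup H] [InnerProductSpace ℝ H]

/-- `∏ (1 + U^n) v` over a list of frequencies -/
def Pop (U : H ≃ₗᵢ[ℝ] H) : List ℕ → H → H
  | [], v => v
  | n :: l, v => Pop U l v + (U ^ (n : ℤ)) (Pop U l v)

/-- `∑_{j<m} a_j (U^j + U^{-j})/2 v` -/
def tpU (U : H ≃ₗᵢ[ℝ] H) (m : ℕ) (a : ℕ → ℝ) (v : H) : H :=
  ∑ j ∈ Finset.range m, (a j / 2) • ((U ^ (j : ℤ)) v + (U ^ (-(j : ℤ))) v)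

/-- the Hilbert space hypotheses attached to the data -/
structure HilbertData (𝒟 : Data) (U : H ≃ₗᵢ[ℝ] H) (f : H)
    (v : (k : ℕ) → Th 𝒟.K k → H) : Prop where
  sum : ∀ k, f = ∑ c : Th 𝒟.K k, Pop U (𝒟.fr k c) (v k c)
  refine : ∀ k (c : Th 𝒟.K k), Pop U (𝒟.fr k c) (v k c)
    = ∑ a : Fin (𝒟.K k + 1), Pop U (𝒟.fr (k + 1) (c, a)) (v (k + 1) (c, a))
  orth : ∀ k (c c' : Th 𝒟.K k), c ≠ c' → ∀ j : ℤ, inner ℝ ((U ^ j) (v k c)) (v k c') = 0
  gap : ∀ k (c : Th 𝒟.K k) (j : ℤ), j ≠ 0 → |j| ≤ 2 * (𝒟.mm k : ℤ) + 2 * ((𝒟.fr k c).sum : ℤ) →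
    inner ℝ ((U ^ j) (v k c)) (v k c) = 0
  norm : ∀ k (c : Th 𝒟.K k), ‖v k c‖ ^ 2
    = (1 / 2 : ℝ) ^ (𝒟.fr k c).length / (Fintype.card (Th 𝒟.K k) : ℝ)
  dom : ∀ k (c : Th 𝒟.K k) (j : ℤ), |inner ℝ ((U ^ j) (v k c)) (v k c)|
    ≤ |inner ℝ ((U ^ j) f) f|
  total : ∀ u : H, (∀ k (c : Th 𝒟.K k) (j : ℤ), inner ℝ ((U ^ j) (v k c)) u = 0) → u = 0

end Hilbert

/-! ## Dynamics side -/

/-- `f ∘ T^z`, `z ∈ ℤ`, is a complete orthonormal system of the real space `L²(μ)`. -/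
def CompleteOrth {X : Type*} [MeasurableSpace X] (μ : Measure X) (T : X ≃ᵐ X) (f : X → ℝ) : Prop :=
  MemLp f 2 μ ∧
  (∀ m n : ℤ, ∫ x, f (((T.toEquiv : Equiv.Perm X) ^ m) x) * f (((T.toEquiv : Equiv.Perm X) ^ n) x) ∂μ
      = if m = n then 1 else 0) ∧
  (∀ g : X → ℝ, MemLp g 2 μ →
    (∀ n : ℤ, ∫ x, f (((T.toEquiv : Equiv.Perm X) ^ n) x) * g x ∂μ = 0) → g =ᵐ[μ] 0)

/-- the Cantor space -/
abbrev Cn := ℕ → Bool

/-- fair coin measure on the Cantor space -/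
def coin : Measure Cn := Measure.infinitePi
  (fun _ : ℕ => (2⁻¹ : ENNReal) • (Measure.dirac true + Measure.dirac false))

/-- the odometer (binary addition of `1`, lowest digit `e 0`) -/
def odo (e : Cn) : Cn := fun j => if (∀ i < j, e i = true) then !(e j) else e j

/-- return time of the rank one map with frequencies `n 0 < n 1 < …` -/
def ret {Ω : Type*} (n : ℕ → Ω → ℕ) (p : Ω × Cn) : ℕ :=
  open Classical in
  if h : ∃ l, p.2 l = false then n (Nat.find h) p.1 - ∑ j ∈ Finset.range (Nat.find h), n j p.1 else 1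

/-- the skyscraper over `Y` with height function `r` -/
abbrev Sky {Y : Type*} (r : Y → ℕ) := {p : Y × ℕ // p.2 < r p.1}

/-- its measure -/
def skyMeasure {Y : Type*} [MeasurableSpace Y] (ν : Measure Y) (r : Y → ℕ) : Measure (Sky r) :=
  (ν.prod (Measure.count : Measure ℕ)).comap Subtype.val

/-- position of a point in the tower of order `i` -/
def pos {Ω : Type} (n : ℕ → Ω → ℕ) (i : ℕ) (p : Sky (ret n)) : ℕ :=
  (∑ l ∈ Finset.range i, if p.1.1.2 l then n l p.1.1.1 else 0) + p.1.2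

/-- the point is in the tower of order `i` -/
def InT {Ω : Type} (n : ℕ → Ω → ℕ) (i : ℕ) (p : Sky (ret n)) : Prop :=
  (∃ l < i, p.1.1.2 l = false) ∨ p.1.2 = 0

/-- the base of the tower of order `i` over `C` -/
def EE {Ω : Type} (n : ℕ → Ω → ℕ) (i : ℕ) (C : Set Ω) : Set (Sky (ret n)) :=
  {p | p.1.1.1 ∈ C ∧ p.1.2 = 0 ∧ ∀ j < i, p.1.1.2 j = false}

/-- the probability space of parameters attached to the data -/
structure Base (𝒟 : Data) where
  Ω : Type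
  [mΩ : MeasurableSpace Ω]
  [sΩ : StandardBorelSpace Ω]
  P : Measure Ω
  [hP : IsProbabilityMeasure P]
  cl : (k : ℕ) → Ω → Th 𝒟.K k
  n : ℕ → Ω → ℕ
  cl_meas : ∀ k c, MeasurableSet {ω | cl k ω = c}
  cl_prob : ∀ k c, P {ω | cl k ω = c} = (Fintype.card (Th 𝒟.K k) : ENNReal)⁻¹
  cl_succ : ∀ k ω, ∃ a : Fin (𝒟.K k + 1), cl (k + 1) ω = (cl k ω, a)
  n_meas : ∀ i, Measurable (n i)
  fr_eq : ∀ k ω, 𝒟.fr k (cl k ω) = (List.range (𝒟.NN k)).map (fun i => n i ω)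
  grow : ∀ i ω, 2 * ∑ j ∈ Finset.range i, n j ω < n i ω
  gap : ∀ k ω, 2 * 𝒟.mm k + 2 * (𝒟.fr k (cl k ω)).sum < n (𝒟.NN k) ω
  gen : MeasurableSpace.generateFrom {A : Set Ω | ∃ k c, A = {ω | cl k ω = c}} = mΩ

attribute [instance] Base.mΩ Base.sΩ Base.hP

/-- the phase space -/
abbrev Base.X {𝒟 : Data} (b : Base 𝒟) : Type := Sky (ret b.n)

/-- the measure on the phase space -/
def Base.μ {𝒟 : Data} (b : Base 𝒟) : Measure b.X := skyMeasure (b.P.prod coin) (ret b.n)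

/-- the phase space together with the transformation -/
structure Model (𝒟 : Data) extends Base 𝒟 where
  T : toBase.X ≃ᵐ toBase.X
  T_mp : MeasurePreserving T toBase.μ toBase.μ
  T1 : ∀ (p : toBase.X) (h : p.1.2 + 1 < ret toBase.n p.1.1), T p = ⟨(p.1.1, p.1.2 + 1), h⟩
  T2 : ∀ (p : toBase.X), ¬ p.1.2 + 1 < ret toBase.n p.1.1 →
    (T p).1.1 = (p.1.1.1, odo p.1.1.2) ∧ (T p).1.2 = 0

end

end Pool.Agent.H691R3.SL
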